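import Pool.Agent.Lib_helper38.XA.Defs

/-! XA block A8 (helper41): the subgroup generated by a finite set -/

set_option autoImplicit false

namespace Pool.Agent.XA

open Finset Filter Pool.Agent.XO

variable {V : Type} [AddCommGroup V] [Fintype V] [DecidableEq V]

theorem a8_sup (H K : AddSubgroup V) :
    Nat.card (H ⊔ K : AddSubgroup V) ≤ Nat.card H * Nat.card K := by
  rw [← Nat.card_prod]
  apply Nat.card_le_card_of_surjective
    (fun x : H × K => (⟨(x.1 : V) + x.2, AddSubgroup.add_mem_sup x.1.2 x.2.2⟩ :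
      (H ⊔ K : AddSubgroup V)))
  rintro ⟨x, hx⟩
  obtain ⟨y, hy, z, hz, h⟩ := AddSubgroup.mem_sup.1 hx
  exact ⟨(⟨y, hy⟩, ⟨z, hz⟩), Subtype.ext h⟩

theorem a8_card {B : ℝ} (hB : 1 ≤ B) (S : Finset V) (hS : ∀ c ∈ S, (addOrderOf c : ℝ) ≤ B) :
    (Nat.card (AddSubgroup.closure (S : Set V)) : ℝ) ≤ B ^ S.card := by
  induction S using Finset.induction_on with
  | empty => simp
  | insert c S hc ih =>
    have h1 := ih (fun x hx => hS x (mem_insert_of_mem hx))
    have h2 := hS c (mem_insert_self c S)
    have h3 : AddSubgroup.closure ((insert c S : Finset V) : Set V) =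
        AddSubgroup.zmultiples c ⊔ AddSubgroup.closure (S : Set V) := by
      rw [coe_insert, Set.insert_eq, AddSubgroup.closure_union, AddSubgroup.zmultiples_eq_closure]
    rw [h3, card_insert_of_notMem hc, pow_succ']
    have h4 := a8_sup (AddSubgroup.zmultiples c) (AddSubgroup.closure (S : Set V))
    rw [Nat.card_zmultiples] at h4
    calc (Nat.card (AddSubgroup.zmultiples c ⊔ AddSubgroup.closure (S : Set V) : AddSubgroup V) : ℝ)
        ≤ (addOrderOf c : ℝ) * Nat.card (AddSubgroup.closure (S : Set V)) := by exact_mod_cast h4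
      _ ≤ B * B ^ S.card := mul_le_mul h2 h1 (Nat.cast_nonneg _) (by linarith)

/-- the subgroup generated by a finite set -/
theorem card_closure_le {S : Finset V} {B : ℝ} (hB : 1 ≤ B) (hS : ∀ c ∈ S, (addOrderOf c : ℝ) ≤ B) :
    Real.log (Nat.card (AddSubgroup.closure (S : Set V))) ≤ S.card * Real.log B := by
  rw [← Real.log_pow]
  apply Real.log_le_log _ (a8_card hB S hS)
  exact_mod_cast Nat.card_pos

end Pool.Agent.XA
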